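import Pool.Agent.Lib.TG_h4.Formula

/-!
# Function fields of one variable over a finitely generated extension of a perfect field (helper4)

The integral closure of `κ[u]` is finite for `κ` F-finite (Frobenius trick of helper68).
-/

set_option autoImplicit false

namespace Pool.Agent.TGh4

open Polynomial IsDedekindDomain

/-- If `R → C → S` is finite, `C → S` injective and `R` noetherian, then `R → C` is finite. -/
theorem finite_of_comp {R C S : Type*} [CommRing R] [CommRing C] [CommRing S] [IsNoetherianRing R]
    (f : R →+* C) (g : C →+* S) (hg : Function.Injective g) (h : (g.comp f).Finite) :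
    f.Finite := by
  let _ : Algebra R S := (g.comp f).toAlgebra
  let _ : Algebra R C := f.toAlgebra
  have h1 : Module.Finite R S := h
  let g' : C →ₗ[R] S :=
    { toFun := g
      map_add' := map_add g
      map_smul' := fun r c => by
        rw [Algebra.smul_def, map_mul, RingHom.id_apply, Algebra.smul_def]
        rfl }
  have h2 : Module.Finite R C := Module.Finite.of_injective g' hg
  exact h2

/-- A finitely generated extension of a perfect field is F-finite. -/
theorem ffinite (k κ : Type*) [Field k] [Field κ] [Algebra k κ] (p : ℕ) [ExpChar k p]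
    [ExpChar κ p] [PerfectRing k p] [Algebra.EssFiniteType k κ] (e : ℕ) :
    (iterateFrobenius κ p e).Finite := by
  obtain ⟨S, hS⟩ := (IntermediateField.fg_top_iff (F := k) (E := κ)).2 inferInstance
  let κq : Subfield κ := (iterateFrobenius κ p e).fieldRange
  have hk : ∀ c : k, algebraMap k κ c ∈ κq := by
    intro c
    obtain ⟨b, rfl⟩ := (bijective_iterateFrobenius k p e).2 c
    refine ⟨algebraMap k κ b, ?_⟩
    rw [iterateFrobenius_def, iterateFrobenius_def, map_pow]
  have hint : ∀ x : κ, IsIntegral κq x := by
    intro x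
    refine ⟨X ^ (p ^ e) - C ⟨x ^ p ^ e, ⟨x, iterateFrobenius_def ..⟩⟩,
      monic_X_pow_sub_C _ (pow_ne_zero _ (expChar_ne_zero k p)), ?_⟩
    rw [eval₂_sub, eval₂_X_pow, eval₂_C]
    exact sub_self _
  have htop : IntermediateField.adjoin κq (S : Set κ) = ⊤ := by
    rw [eq_top_iff]
    intro x _
    have hx : x ∈ IntermediateField.adjoin k (S : Set κ) := hS ▸ IntermediateField.mem_top
    induction hx using IntermediateField.adjoin_induction with
    | mem x hx => exact IntermediateField.subset_adjoin _ _ hx
    | algebraMap c =>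
      exact IntermediateField.algebraMap_mem (IntermediateField.adjoin κq (S : Set κ))
        (⟨_, hk c⟩ : κq)
    | add x y _ _ hx hy => exact add_mem (hx trivial) (hy trivial)
    | inv x _ hx => exact inv_mem (hx trivial)
    | mul x y _ _ hx hy => exact mul_mem (hx trivial) (hy trivial)
  have hfd : FiniteDimensional κq κ := by
    have h1 := IntermediateField.finiteDimensional_adjoin (K := κq) (L := κ) (S := (S : Set κ))
      (fun x _ => hint x)
    rw [htop] at h1
    exact Module.Finite.equiv (IntermediateField.topEquiv (F := κq) (E := κ)).toLinearEquiv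
  have h2 : (κq.subtype).Finite := by
    rw [RingHom.Finite]
    exact hfd
  have h3 : ((iterateFrobenius κ p e).rangeRestrictField).Finite :=
    RingHom.Finite.of_surjective _ (RingHom.rangeRestrictField_bijective _).2
  have h4 : iterateFrobenius κ p e = (κq.subtype).comp (iterateFrobenius κ p e).rangeRestrictField :=
    rfl
  rw [h4]
  exact h2.comp h3

/-- The Frobenius endomorphism of `κ[X]` is finite if the one of `κ` is. -/
theorem finite_frobenius_poly (κ : Type*) [Field κ] (p : ℕ) [ExpChar κ p] (e : ℕ)
    (h : (iterateFrobenius κ p e).Finite) : (iterateFrobenius κ[X] p e).Finite := by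
  classical
  obtain ⟨φ, hφ⟩ : ∃ φ, φ = iterateFrobenius κ[X] p e := ⟨_, rfl⟩
  rw [← hφ]
  have hint : φ.IsIntegral := by
    intro a
    refine ⟨X ^ (p ^ e) - C a, monic_X_pow_sub_C a (pow_ne_zero _ (expChar_ne_zero κ p)), ?_⟩
    rw [eval₂_sub, eval₂_X_pow, eval₂_C, hφ, iterateFrobenius_def, sub_self]
  refine hint.to_finite ?_
  obtain ⟨ψ, hψ⟩ : ∃ ψ, ψ = iterateFrobenius κ p e := ⟨_, rfl⟩
  rw [← hψ] at h
  have h1 : ∃ T : Finset κ, ∀ x : κ, ∃ c : κ → κ, x = ∑ t ∈ T, ψ (c t) * t := by
    let _ : Algebra κ κ := ψ.toAlgebra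
    have h2 : @Module.Finite κ κ _ _ (ψ.toAlgebra.toModule) := h
    obtain ⟨T, hT⟩ := h2
    refine ⟨T, fun x => ?_⟩
    have hx : x ∈ @Submodule.span κ κ _ _ (ψ.toAlgebra.toModule) (T : Set κ) := hT ▸ trivial
    obtain ⟨c, hc⟩ := (@Submodule.mem_span_finset _ _ _ _ (ψ.toAlgebra.toModule) T x).1 hx
    exact ⟨c, hc.2.symm⟩
  obtain ⟨T, hT⟩ := h1
  let _ : Algebra κ[X] κ[X] := φ.toAlgebra
  refine ⟨⟨insert X (T.image C), ?_⟩⟩
  rw [Algebra.eq_top_iff]
  intro q
  have hsm : ∀ r : κ[X], φ r ∈
      Algebra.adjoin κ[X] ((insert X (T.image C) : Finset κ[X]) : Set κ[X]) := fun r =>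
    Subalgebra.algebraMap_mem _ r
  have hC : ∀ a : κ, C a ∈
      Algebra.adjoin κ[X] ((insert X (T.image C) : Finset κ[X]) : Set κ[X]) := by
    intro a
    obtain ⟨c, hc⟩ := hT a
    rw [hc, map_sum]
    refine sum_mem fun t ht => ?_
    rw [map_mul]
    refine mul_mem ?_ (Algebra.subset_adjoin ?_)
    · have h3 := hsm (C (c t))
      rwa [hφ, iterateFrobenius_def, ← map_pow, ← iterateFrobenius_def, ← hψ] at h3
    · rw [Finset.coe_insert, Finset.coe_image]
      exact Set.mem_insert_of_mem _ ⟨t, ht, rfl⟩
  have hX : X ∈ Algebra.adjoin κ[X] ((insert X (T.image C) : Finset κ[X]) : Set κ[X]) :=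
    Algebra.subset_adjoin (by simp)
  induction q using Polynomial.induction_on' with
  | add a b ha hb => exact add_mem ha hb
  | monomial n a =>
    rw [← C_mul_X_pow_eq_monomial]
    exact mul_mem (hC a) (pow_mem hX n)

/-- The integral closure of `κ[X]` in a finite extension of its field of fractions, `κ` F-finite. -/
theorem finite_intClosure (κ : Type*) [Field κ] (p : ℕ) [ExpChar κ p]
    (hκ : ∀ e, (iterateFrobenius κ p e).Finite) (F L : Type*)
    [Field F] [Algebra κ[X] F] [IsFractionRing κ[X] F]
    [Field L] [Algebra F L] [FiniteDimensional F L] [Algebra κ[X] L]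
    [IsScalarTower κ[X] F L] :
    Module.Finite κ[X] (integralClosure κ[X] L) := by
  have hpX : ExpChar κ[X] p := inferInstance
  have hpF : ExpChar F p := expChar_of_injective_algebraMap (IsFractionRing.injective κ[X] F) p
  have hpL : ExpChar L p := expChar_of_injective_algebraMap (algebraMap F L).injective p
  let Ls := separableClosure F L
  have hpLs : ExpChar Ls p := expChar_of_injective_algebraMap (algebraMap F Ls).injective p
  have hsep : Algebra.IsSeparable F Ls := inferInstance
  have htw : IsScalarTower κ[X] Ls L := IsScalarTower.of_algebraMap_eq fun _ => by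
    rw [IsScalarTower.algebraMap_apply κ[X] F Ls, IsScalarTower.algebraMap_apply κ[X] F L,
      ← IsScalarTower.algebraMap_apply F Ls L]
  have hS : Module.Finite κ[X] (integralClosure κ[X] Ls) :=
    IsIntegralClosure.finite κ[X] F Ls _
  obtain ⟨e, he⟩ : ∃ e, IsPurelyInseparable.exponent Ls L = e := ⟨_, rfl⟩
  let φ : L →+* Ls := IsPurelyInseparable.iterateFrobenius Ls L p he.le
  have hφ : ∀ a, algebraMap Ls L (φ a) = a ^ p ^ e := fun a =>
    IsPurelyInseparable.algebraMap_iterateFrobenius Ls p he.le a
  have hint : ∀ a ∈ integralClosure κ[X] L, φ a ∈ integralClosure κ[X] Ls := by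
    intro a ha
    have h1 : IsIntegral κ[X] (algebraMap Ls L (φ a)) := by
      rw [hφ]
      exact IsIntegral.pow ha _
    exact (isIntegral_algebraMap_iff (algebraMap Ls L).injective).1 h1
  let g : integralClosure κ[X] L →+* integralClosure κ[X] Ls :=
    { toFun := fun a => ⟨φ a, hint a a.2⟩
      map_one' := Subtype.ext (map_one φ)
      map_mul' := fun a b => Subtype.ext (map_mul φ _ _)
      map_zero' := Subtype.ext (map_zero φ)
      map_add' := fun a b => Subtype.ext (map_add φ _ _) }
  refine RingHom.finite_algebraMap.1 (finite_of_comp (algebraMap _ _) g ?_ ?_)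
  · intro a b hab
    exact Subtype.ext (φ.injective (congrArg Subtype.val hab))
  · have h1 : g.comp (algebraMap κ[X] (integralClosure κ[X] L)) =
        (algebraMap κ[X] (integralClosure κ[X] Ls)).comp (iterateFrobenius κ[X] p e) := by
      refine RingHom.ext fun r => ?_
      apply Subtype.ext
      apply (algebraMap Ls L).injective
      change algebraMap Ls L (φ (algebraMap κ[X] L r)) =
        algebraMap Ls L (algebraMap κ[X] Ls (iterateFrobenius κ[X] p e r))
      rw [hφ, iterateFrobenius_def, ← IsScalarTower.algebraMap_apply, map_pow]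
    rw [h1]
    exact RingHom.Finite.comp (RingHom.finite_algebraMap.2 hS) (finite_frobenius_poly κ p e (hκ e))

section

variable {κ K : Type*} [Field κ] [Field K] [Algebra κ K]

theorem Coord.of_ffinite (p : ℕ) [ExpChar κ p] (hκ : ∀ e, (iterateFrobenius κ p e).Finite)
    {u : K} (hu : Transcendental κ u)
    (hfin : FiniteDimensional (IntermediateField.adjoin κ {u}) K) : Coord κ u := by
  refine ⟨hu, hfin, ?_⟩
  let _ := algX κ u
  obtain ⟨_, hfr, htow, hfs, htow', halg, hfin⟩ := setup' u hu hfin _ rfl
  exact finite_intClosure κ p hκ (IntermediateField.adjoin κ {u}) K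

theorem finite_of_trdeg [Algebra.EssFiniteType κ K] (htr : Algebra.trdeg κ K = 1) {u : K}
    (hu : Transcendental κ u) : FiniteDimensional (IntermediateField.adjoin κ {u}) K := by
  have h1 : AlgebraicIndependent κ (fun _ : Unit => u) :=
    algebraicIndependent_unique_type_iff.2 hu
  have h2 : IsTranscendenceBasis κ (fun _ : Unit => u) := by
    refine AlgebraicIndependent.isTranscendenceBasis_of_lift_trdeg_le_of_finite h1 ?_
    rw [htr]
    simp
  have h3 : Algebra.IsAlgebraic (IntermediateField.adjoin κ {u}) K := by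
    have h4 := h2.isAlgebraic_field
    rwa [Set.range_const] at h4
  have h5 : Algebra.EssFiniteType (IntermediateField.adjoin κ {u}) K :=
    Algebra.EssFiniteType.of_comp κ _ K
  exact Algebra.finite_of_essFiniteType_of_isAlgebraic

end

/-- `K / κ` is a function field of one variable, `κ` a f.g. extension of a perfect field `k`. -/
theorem FF.of (k κ K : Type*) [Field k] [Field κ] [Field K] [Algebra k κ] [Algebra κ K]
    [PerfectField k] [Algebra.EssFiniteType k κ] [Algebra.EssFiniteType κ K] [Infinite κ]
    (htr : Algebra.trdeg κ K = 1) : FF κ K := by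
  obtain ⟨p, hp⟩ := ExpChar.exists k
  have hp' : ExpChar κ p := expChar_of_injective_algebraMap (algebraMap k κ).injective p
  refine ⟨inferInstance, ?_, fun u hu => ?_⟩
  · by_contra hne
    push Not at hne
    have h1 : Algebra.IsAlgebraic κ K := ⟨fun x => by
      by_contra hx
      exact hne x hx⟩
    have h2 : Algebra.trdeg κ K = 0 := _root_.trdeg_eq_zero
    rw [h2] at htr
    exact zero_ne_one htr
  · exact Coord.of_ffinite p (fun e => ffinite k κ p e) hu (finite_of_trdeg htr hu)

end Pool.Agent.TGh4
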