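import Mathlib

/-!
# Orders for discrete valuation subrings of a field (helper4)
-/

set_option autoImplicit false

namespace Pool.Agent.TGh4

variable {K : Type*} [Field K]

/-- `π` is a uniformizer of the discrete valuation ring `V`. -/
structure IsUnif (V : ValuationSubring K) (π : K) : Prop where
  ne : π ≠ 0
  lt : V.valuation π < 1
  gen : ∀ x : K, x ≠ 0 → ∃ n : ℤ, V.valuation x = V.valuation π ^ n

/-- `V` is a discrete valuation ring with field of fractions `K` (not equal to `K`). -/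
def Disc (V : ValuationSubring K) : Prop := ∃ π, IsUnif V π

theorem IsUnif.pos {V : ValuationSubring K} {π : K} (h : IsUnif V π) : 0 < V.valuation π :=
  zero_lt_iff.2 ((Valuation.ne_zero_iff _).2 h.ne)

theorem IsUnif.zpow_lt {V : ValuationSubring K} {π : K} (h : IsUnif V π) {m n : ℤ} :
    V.valuation π ^ m < V.valuation π ^ n ↔ n < m :=
  zpow_lt_zpow_iff_right_of_lt_one₀ h.pos h.lt

theorem IsUnif.zpow_le {V : ValuationSubring K} {π : K} (h : IsUnif V π) {m n : ℤ} :
    V.valuation π ^ m ≤ V.valuation π ^ n ↔ n ≤ m :=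
  zpow_le_zpow_iff_right_of_lt_one₀ h.pos h.lt

theorem IsUnif.zpow_inj {V : ValuationSubring K} {π : K} (h : IsUnif V π) {m n : ℤ} :
    V.valuation π ^ m = V.valuation π ^ n ↔ m = n := by
  constructor
  · intro e
    exact le_antisymm (h.zpow_le.1 e.ge) (h.zpow_le.1 e.le)
  · rintro rfl
    rfl

theorem IsUnif.zpow_lt_one {V : ValuationSubring K} {π : K} (h : IsUnif V π) {m : ℤ} :
    V.valuation π ^ m < 1 ↔ 0 < m := by
  have := h.zpow_lt (m := m) (n := 0)
  rwa [zpow_zero] at this

theorem IsUnif.val_eq {V : ValuationSubring K} {π π' : K} (h : IsUnif V π) (h' : IsUnif V π') :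
    V.valuation π = V.valuation π' := by
  obtain ⟨n, hn⟩ := h.gen π' h'.ne
  obtain ⟨m, hm⟩ := h'.gen π h.ne
  have h1 : 0 < n := by
    have := h'.lt
    rw [hn] at this
    exact h.zpow_lt_one.1 this
  have h2 : V.valuation π ^ (1 : ℤ) = V.valuation π ^ (n * m) := by
    rw [zpow_mul, ← hn, ← hm, zpow_one]
  have h3 := h.zpow_inj.1 h2
  have h4 : n = 1 := by
    rcases Int.eq_one_or_neg_one_of_mul_eq_one h3.symm with h5 | h5
    · exact h5
    · omega
  rw [hn, h4, zpow_one]

open Classical in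
/-- The order of `x` (`0` for `x = 0`). -/
noncomputable def ordV (V : ValuationSubring K) (x : K) : ℤ :=
  if h : ∃ n : ℤ, ∃ π, IsUnif V π ∧ V.valuation x = V.valuation π ^ n then h.choose else 0

theorem ordV_eq {V : ValuationSubring K} {π : K} (h : IsUnif V π) {x : K} {n : ℤ}
    (hn : V.valuation x = V.valuation π ^ n) : ordV V x = n := by
  have h1 : ∃ n : ℤ, ∃ π, IsUnif V π ∧ V.valuation x = V.valuation π ^ n := ⟨n, π, h, hn⟩
  rw [ordV, dif_pos h1]
  obtain ⟨π', h2, h3⟩ := h1.choose_spec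
  have h4 := hn.symm.trans h3
  rw [← h.val_eq h2, h.zpow_inj] at h4
  exact h4.symm

theorem IsUnif.val {V : ValuationSubring K} {π : K} (h : IsUnif V π) {x : K} (hx : x ≠ 0) :
    V.valuation x = V.valuation π ^ ordV V x := by
  obtain ⟨n, hn⟩ := h.gen x hx
  rw [ordV_eq h hn, hn]

@[simp] theorem ordV_zero (V : ValuationSubring K) : ordV V (0 : K) = 0 := by
  rw [ordV, dif_neg]
  rintro ⟨n, π, h, h1⟩
  rw [map_zero] at h1
  exact zpow_ne_zero n h.pos.ne' h1.symm

@[simp] theorem ordV_one (V : ValuationSubring K) : ordV V (1 : K) = 0 := by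
  by_cases hV : Disc V
  · obtain ⟨π, h⟩ := hV
    exact ordV_eq h (by rw [map_one, zpow_zero])
  · rw [ordV, dif_neg]
    rintro ⟨n, π, h, -⟩
    exact hV ⟨π, h⟩

theorem ordV_of_not {V : ValuationSubring K} (hV : ¬ Disc V) (x : K) : ordV V x = 0 := by
  rw [ordV, dif_neg]
  rintro ⟨n, π, h, -⟩
  exact hV ⟨π, h⟩

theorem ordV_mul (V : ValuationSubring K) {x y : K} (hx : x ≠ 0) (hy : y ≠ 0) :
    ordV V (x * y) = ordV V x + ordV V y := by
  by_cases hV : Disc V
  · obtain ⟨π, h⟩ := hV
    refine ordV_eq h ?_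
    rw [map_mul, h.val hx, h.val hy, zpow_add₀ h.pos.ne']
  · simp [ordV_of_not hV]

@[simp] theorem ordV_inv (V : ValuationSubring K) (x : K) : ordV V x⁻¹ = - ordV V x := by
  by_cases hx : x = 0
  · simp [hx]
  · have h1 := ordV_mul V hx (inv_ne_zero hx)
    rw [mul_inv_cancel₀ hx, ordV_one] at h1
    omega

theorem ordV_div (V : ValuationSubring K) {x y : K} (hx : x ≠ 0) (hy : y ≠ 0) :
    ordV V (x / y) = ordV V x - ordV V y := by
  rw [div_eq_mul_inv, ordV_mul V hx (inv_ne_zero hy), ordV_inv]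
  ring

@[simp] theorem ordV_pow (V : ValuationSubring K) (x : K) (n : ℕ) :
    ordV V (x ^ n) = n * ordV V x := by
  by_cases hx : x = 0
  · subst hx
    rcases n with - | n
    · simp
    · simp
  · induction n with
    | zero => simp
    | succ n ih =>
      rw [pow_succ, ordV_mul V (pow_ne_zero n hx) hx, ih]
      push_cast
      ring

@[simp] theorem ordV_neg (V : ValuationSubring K) (x : K) : ordV V (-x) = ordV V x := by
  by_cases hx : x = 0
  · simp [hx]
  by_cases hV : Disc V
  · obtain ⟨π, h⟩ := hV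
    refine ordV_eq h ?_
    rw [Valuation.map_neg, h.val hx]
  · simp [ordV_of_not hV]

theorem ordV_prod {ι : Type*} (V : ValuationSubring K) (s : Finset ι) (x : ι → K)
    (hx : ∀ i ∈ s, x i ≠ 0) : ordV V (∏ i ∈ s, x i) = ∑ i ∈ s, ordV V (x i) := by
  classical
  induction s using Finset.induction_on with
  | empty => simp
  | insert i s hi ih =>
    rw [Finset.prod_insert hi, Finset.sum_insert hi, ordV_mul V (hx i (Finset.mem_insert_self i s))
      (Finset.prod_ne_zero_iff.2 fun j hj => hx j (Finset.mem_insert_of_mem hj)),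
      ih fun j hj => hx j (Finset.mem_insert_of_mem hj)]

theorem val_le_iff {V : ValuationSubring K} (hV : Disc V) {x y : K} (hx : x ≠ 0) (hy : y ≠ 0) :
    V.valuation x ≤ V.valuation y ↔ ordV V y ≤ ordV V x := by
  obtain ⟨π, h⟩ := hV
  rw [h.val hx, h.val hy, h.zpow_le]

theorem val_lt_iff {V : ValuationSubring K} (hV : Disc V) {x y : K} (hx : x ≠ 0) (hy : y ≠ 0) :
    V.valuation x < V.valuation y ↔ ordV V y < ordV V x := by
  obtain ⟨π, h⟩ := hV
  rw [h.val hx, h.val hy, h.zpow_lt]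

theorem mem_iff {V : ValuationSubring K} (hV : Disc V) {x : K} (hx : x ≠ 0) :
    x ∈ V ↔ 0 ≤ ordV V x := by
  rw [← V.valuation_le_one_iff, ← map_one V.valuation, val_le_iff hV hx one_ne_zero, ordV_one]

theorem lt_one_iff {V : ValuationSubring K} (hV : Disc V) {x : K} (hx : x ≠ 0) :
    V.valuation x < 1 ↔ 0 < ordV V x := by
  rw [← map_one V.valuation, val_lt_iff hV hx one_ne_zero, ordV_one]

theorem ordV_nonneg_of_mem {V : ValuationSubring K} {x : K} (hx : x ∈ V) : 0 ≤ ordV V x := by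
  by_cases hV : Disc V
  · by_cases h0 : x = 0
    · simp [h0]
    · exact (mem_iff hV h0).1 hx
  · rw [ordV_of_not hV]

theorem ordV_eq_zero_iff {V : ValuationSubring K} (hV : Disc V) {x : K} (hx : x ≠ 0) :
    ordV V x = 0 ↔ V.valuation x = 1 := by
  have h1 := mem_iff hV hx
  have h2 := lt_one_iff hV hx
  rw [← V.valuation_le_one_iff] at h1
  constructor
  · intro h
    exact le_antisymm (h1.2 h.ge) (not_lt.1 fun h3 => by
      have := h2.1 h3
      omega)
  · intro h
    have h3 := h1.1 h.le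
    have h4 : ¬ 0 < ordV V x := fun h5 => by
      have := h2.2 h5
      rw [h] at this
      exact lt_irrefl _ this
    omega

theorem ordV_unif {V : ValuationSubring K} {π : K} (h : IsUnif V π) : ordV V π = 1 :=
  ordV_eq h (by rw [zpow_one])

theorem Disc.exists_one {V : ValuationSubring K} (hV : Disc V) : ∃ π, π ≠ 0 ∧ ordV V π = 1 := by
  obtain ⟨π, h⟩ := hV
  exact ⟨π, h.ne, ordV_unif h⟩

theorem le_ordV_add {V : ValuationSubring K} {x y : K} {n : ℤ} (hxy : x + y ≠ 0)
    (hx : x ≠ 0 → n ≤ ordV V x) (hy : y ≠ 0 → n ≤ ordV V y) : n ≤ ordV V (x + y) := by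
  by_cases hV : Disc V
  · by_cases hx0 : x = 0
    · subst hx0
      rw [zero_add] at hxy ⊢
      exact hy hxy
    by_cases hy0 : y = 0
    · subst hy0
      rw [add_zero] at hxy ⊢
      exact hx hxy
    obtain ⟨π, h⟩ := hV
    have h1 := V.valuation.map_add x y
    rw [h.val hxy, h.val hx0, h.val hy0] at h1
    rcases le_max_iff.1 h1 with h2 | h2
    · exact (hx hx0).trans (h.zpow_le.1 h2)
    · exact (hy hy0).trans (h.zpow_le.1 h2)
  · rw [ordV_of_not hV]
    by_cases hx0 : x = 0
    · subst hx0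
      rw [zero_add] at hxy
      have := hy hxy
      rwa [ordV_of_not hV] at this
    · have := hx hx0
      rwa [ordV_of_not hV] at this

theorem min_le_ordV_add {V : ValuationSubring K} {x y : K} (hxy : x + y ≠ 0) :
    min (ordV V x) (ordV V y) ≤ ordV V (x + y) :=
  le_ordV_add hxy (fun _ => min_le_left _ _) (fun _ => min_le_right _ _)

theorem ordV_add_of_lt {V : ValuationSubring K} {x y : K} (hx : x ≠ 0)
    (hy : y ≠ 0 → ordV V x < ordV V y) : x + y ≠ 0 ∧ ordV V (x + y) = ordV V x := by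
  by_cases hy0 : y = 0
  · subst hy0
    rw [add_zero]
    exact ⟨hx, rfl⟩
  have h1 := hy hy0
  have hV : Disc V := by
    by_contra hV
    rw [ordV_of_not hV, ordV_of_not hV] at h1
    exact lt_irrefl _ h1
  have hxy : x + y ≠ 0 := by
    intro h
    rw [eq_neg_of_add_eq_zero_left h, ordV_neg] at h1
    exact lt_irrefl _ h1
  refine ⟨hxy, le_antisymm ?_ (le_ordV_add hxy (fun _ => le_rfl) fun _ => h1.le)⟩
  by_contra h2
  rw [not_le] at h2
  have h3 : x = (x + y) + (-y) := by ring
  have h4 : ordV V x + 1 ≤ ordV V ((x + y) + (-y)) := by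
    refine le_ordV_add (h3 ▸ hx) (fun _ => by omega) (fun _ => ?_)
    rw [ordV_neg]
    omega
  rw [← h3] at h4
  omega

/-- Criterion: an element `π` such that every nonzero element is a unit times a power of `π`. -/
theorem isUnif_of {V : ValuationSubring K} {π : K} (h0 : π ≠ 0) (h1 : V.valuation π < 1)
    (h2 : ∀ x : K, x ∈ V → x ≠ 0 → ∃ n : ℕ, V.valuation x = V.valuation π ^ n) :
    IsUnif V π := by
  refine ⟨h0, h1, fun x hx => ?_⟩
  rcases V.mem_or_inv_mem x with h | h
  · obtain ⟨n, hn⟩ := h2 x h hx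
    exact ⟨n, by rw [hn, zpow_natCast]⟩
  · obtain ⟨n, hn⟩ := h2 _ h (inv_ne_zero hx)
    refine ⟨-n, ?_⟩
    rw [map_inv₀] at hn
    rw [zpow_neg, zpow_natCast, ← hn, inv_inv]

end Pool.Agent.TGh4
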