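import Pool.Agent.Lib.TG_h4.Dede

/-!
# Places of a field over a subfield and Dedekind domains (helper4)
-/

set_option autoImplicit false

namespace Pool.Agent.TGh4

open IsDedekindDomain WithZero

/-- A place of `K / κ`: a valuation ring of `K` containing `κ`, different from `K`. -/
@[ext] structure Place (κ K : Type*) [Field κ] [Field K] [Algebra κ K] where
  /-- the valuation ring -/
  V : ValuationSubring K
  ov : ∀ c : κ, algebraMap κ K c ∈ V
  ne_top : V ≠ ⊤

namespace Place

variable {κ K : Type*} [Field κ] [Field K] [Algebra κ K]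

/-- The valuation ring as a subalgebra. -/
def sub (P : Place κ K) : Subalgebra κ K :=
  { P.V.toSubring with algebraMap_mem' := P.ov }

theorem mem_sub (P : Place κ K) {x : K} : x ∈ P.sub ↔ x ∈ P.V := Iff.rfl

/-- The maximal ideal. -/
def max (P : Place κ K) : Ideal P.sub where
  carrier := {x | P.V.valuation (x : K) < 1}
  add_mem' := by
    intro a b ha hb
    exact (P.V.valuation.map_add_lt ha hb : P.V.valuation ((a : K) + b) < 1)
  zero_mem' := by
    change P.V.valuation ((0 : P.sub) : K) < 1
    rw [ZeroMemClass.coe_zero, map_zero]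
    exact zero_lt_one
  smul_mem' := by
    intro c x hx
    have h1 : P.V.valuation (c : K) ≤ 1 := (P.V.valuation_le_one_iff _).2 c.2
    change P.V.valuation ((c : K) * x) < 1
    rw [map_mul]
    exact (mul_le_of_le_one_left' h1).trans_lt hx

theorem mem_max (P : Place κ K) {x : P.sub} : x ∈ P.max ↔ P.V.valuation (x : K) < 1 := Iff.rfl

/-- The degree of the place: the dimension of the residue field over `κ` (`0` if infinite). -/
noncomputable def deg (P : Place κ K) : ℕ := Module.finrank κ (P.sub ⧸ P.max)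

theorem max_ne_top (P : Place κ K) : P.max ≠ ⊤ := by
  intro h
  have h1 : (1 : P.sub) ∈ P.max := h ▸ Submodule.mem_top
  rw [mem_max, OneMemClass.coe_one, map_one] at h1
  exact lt_irrefl _ h1

/-- Computation of the residue field by a subring `B` with `B + m = V`. -/
theorem deg_eq (P : Place κ K) {B : Type*} [CommRing B] [Algebra κ B] (φ : B →ₐ[κ] K)
    (h1 : ∀ b, φ b ∈ P.V) (v : Ideal B) (h2 : ∀ b, b ∈ v ↔ P.V.valuation (φ b) < 1)
    (h3 : ∀ x ∈ P.V, ∃ b, P.V.valuation (x - φ b) < 1) :
    Nonempty ((B ⧸ v) ≃ₗ[κ] (P.sub ⧸ P.max)) := by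
  let ψ : B →ₐ[κ] P.sub := φ.codRestrict P.sub h1
  let θ : B →ₐ[κ] (P.sub ⧸ P.max) := (Ideal.Quotient.mkₐ κ P.max).comp ψ
  have hker : RingHom.ker θ = v := by
    ext b
    rw [RingHom.mem_ker, h2 b]
    change Ideal.Quotient.mk P.max (ψ b) = 0 ↔ _
    rw [Ideal.Quotient.eq_zero_iff_mem, mem_max]
    rfl
  have hsurj : Function.Surjective θ := by
    intro y
    obtain ⟨x, rfl⟩ := Ideal.Quotient.mk_surjective y
    obtain ⟨b, hb⟩ := h3 x x.2
    refine ⟨b, ?_⟩
    change Ideal.Quotient.mk P.max (ψ b) = _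
    refine (Ideal.Quotient.eq.2 ?_).symm
    rw [mem_max]
    exact hb
  have e1 : (B ⧸ v) ≃ₐ[κ] (B ⧸ RingHom.ker θ) := Ideal.quotientEquivAlgOfEq κ hker.symm
  exact ⟨(e1.trans (Ideal.quotientKerAlgEquivOfSurjective hsurj)).toLinearEquiv⟩

end Place

section Dedekind

variable {K B : Type*} [Field K] [CommRing B] [IsDedekindDomain B] [Algebra B K]
  [IsFractionRing B K]

/-- The valuation subring of a maximal ideal. -/
noncomputable def vs (K : Type*) {B : Type*} [Field K] [CommRing B] [IsDedekindDomain B]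
    [Algebra B K] [IsFractionRing B K] (v : HeightOneSpectrum B) : ValuationSubring K :=
  (v.valuation K).valuationSubring

theorem mem_vs {v : HeightOneSpectrum B} {x : K} : x ∈ vs K v ↔ v.valuation K x ≤ 1 := Iff.rfl

theorem vs_ne_top (v : HeightOneSpectrum B) : vs K v ≠ ⊤ := by
  rw [vs, ne_eq, Valuation.valuationSubring_eq_top_iff, not_not]
  infer_instance

theorem vs_val_eq {v : HeightOneSpectrum B} {x y : K} :
    (vs K v).valuation x = (vs K v).valuation y ↔ v.valuation K x = v.valuation K y :=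
  ((v.valuation K).isEquiv_valuation_valuationSubring.eq_iff (r := x) (s := y)).symm

theorem vs_val_lt {v : HeightOneSpectrum B} {x y : K} :
    (vs K v).valuation x < (vs K v).valuation y ↔ v.valuation K x < v.valuation K y :=
  ((v.valuation K).isEquiv_valuation_valuationSubring.lt_iff_lt (x := x) (y := y)).symm

theorem vs_unif {v : HeightOneSpectrum B} {π : K} (h : v.valuation K π = exp (-1 : ℤ)) :
    IsUnif (vs K v) π := by
  have h0 : π ≠ 0 := by
    rintro rfl
    rw [map_zero] at h
    exact exp_ne_zero h.symm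
  refine ⟨h0, ?_, ?_⟩
  · rw [← map_one (vs K v).valuation, vs_val_lt, h, map_one, ← exp_zero, exp_lt_exp]
    omega
  · intro x hx
    have h1 : v.valuation K x ≠ 0 := (Valuation.ne_zero_iff _).2 hx
    refine ⟨-(log (v.valuation K x)), ?_⟩
    rw [← map_zpow₀, vs_val_eq, map_zpow₀, h, ← exp_zsmul, smul_eq_mul, neg_mul_neg, mul_one,
      exp_log h1]

theorem vs_disc (v : HeightOneSpectrum B) : Disc (vs K v) := by
  obtain ⟨π, h⟩ := v.valuation_exists_uniformizer K
  exact ⟨π, vs_unif h⟩

theorem ordV_vs (v : HeightOneSpectrum B) {b : B} (hb : b ≠ 0) :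
    ordV (vs K v) (algebraMap B K b) = multiplicity v.asIdeal (Ideal.span {b}) := by
  obtain ⟨π, h⟩ := v.valuation_exists_uniformizer K
  refine ordV_eq (vs_unif h) ?_
  rw [← map_zpow₀, vs_val_eq, map_zpow₀, h, HeightOneSpectrum.valuation_of_algebraMap,
    v.intValuation_eq_exp_neg_multiplicity hb, ← exp_zsmul, smul_eq_mul, mul_neg, mul_one]

theorem vs_injective : Function.Injective (vs K (B := B)) := by
  intro v w h
  refine HeightOneSpectrum.eq_of_valuation_isEquiv_valuation (K := K) ?_
  exact Valuation.isEquiv_iff_valuationSubring _ _ |>.2 h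

theorem exists_vs {V : ValuationSubring K} (hV : V ≠ ⊤) (hB : ∀ b : B, algebraMap B K b ∈ V) :
    ∃ v : HeightOneSpectrum B, V = vs K v := by
  let f : B →+* V := (algebraMap B K).codRestrict V.toSubring hB
  let p : Ideal B := (IsLocalRing.maximalIdeal V).comap f
  have hmem : ∀ b, b ∈ p ↔ V.valuation (algebraMap B K b) < 1 := by
    intro b
    rw [Ideal.mem_comap]
    exact V.valuation_lt_one_iff (f b)
  have hp : p.IsPrime := Ideal.IsPrime.comap f
  have hp0 : p ≠ ⊥ := by
    intro h0
    apply hV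
    rw [eq_top_iff]
    intro x _
    obtain ⟨a, b, hb, rfl⟩ := IsFractionRing.div_surjective (A := B) x
    have hb0 : b ≠ 0 := nonZeroDivisors.ne_zero hb
    have h1 : ¬ (V.valuation (algebraMap B K b) < 1) := by
      rw [← hmem, h0]
      simpa using hb0
    have h2 : V.valuation (algebraMap B K b) = 1 :=
      le_antisymm ((V.valuation_le_one_iff _).2 (hB b)) (not_lt.1 h1)
    rw [← V.valuation_le_one_iff, map_div₀, h2, div_one]
    exact (V.valuation_le_one_iff _).2 (hB a)
  let v : HeightOneSpectrum B := ⟨p, hp, hp0⟩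
  refine ⟨v, ?_⟩
  symm
  rw [vs, ← HeightOneSpectrum.valuationSubringAtPrime_eq_valuationSubring]
  refine ValuationSubring.eq_of_le_of_ne_top _ ?_ hV
  rintro x ⟨a, s, hs, rfl⟩
  have h3 : s ∉ p := hs
  rw [hmem] at h3
  have h2 : V.valuation (algebraMap B K s) = 1 :=
    le_antisymm ((V.valuation_le_one_iff _).2 (hB s)) (not_lt.1 h3)
  rw [← V.valuation_le_one_iff, map_mul, map_inv₀, h2, inv_one, mul_one]
  exact (V.valuation_le_one_iff _).2 (hB a)

end Dedekind

end Pool.Agent.TGh4
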