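import Pool.Agent.Lib.TG_h4.PlaceD

/-!
# Places over the affine line: the order-degree count (helper4)
-/

set_option autoImplicit false

namespace Pool.Agent.TGh4

open Polynomial IsDedekindDomain

section Core

variable (κ K : Type*) [Field κ] [Field K] [Algebra κ[X] K] [FaithfulSMul κ[X] K]
  [Algebra.IsAlgebraic κ[X] K]

theorem ifr : IsFractionRing (integralClosure κ[X] K) K :=
  integralClosure.isFractionRing_of_algebraic (fun x hx => by
    rw [map_eq_zero_iff] at hx
    · exact hx
    · exact FaithfulSMul.algebraMap_injective _ _)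

theorem idd [Module.Finite κ[X] (integralClosure κ[X] K)] :
    IsDedekindDomain (integralClosure κ[X] K) := by
  have h1 := ifr κ K
  have h2 : IsIntegrallyClosed (integralClosure κ[X] K) :=
    (IsIntegrallyClosed.integralClosure_eq_bot_iff K).mp integralClosure_idem
  have h3 : IsNoetherianRing (integralClosure κ[X] K) := IsNoetherianRing.of_finite κ[X] _
  have h4 : Ring.DimensionLEOne (integralClosure κ[X] K) := inferInstance
  have h5 : IsDedekindRing (integralClosure κ[X] K) :=
    { h3, h4, (isIntegrallyClosed_iff_isIntegralClosure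
        (FractionRing (integralClosure κ[X] K))).1 h2 with }
  exact { h5 with }

omit [Algebra.IsAlgebraic κ[X] K] in
theorem free_B [Module.Finite κ[X] (integralClosure κ[X] K)] :
    Module.Free κ[X] (integralClosure κ[X] K) := by
  infer_instance

theorem fin_quot [Algebra κ K] [IsScalarTower κ κ[X] K]
    (v : Ideal (integralClosure κ[X] K)) (hv : v ≠ ⊥) [v.IsPrime]
    [Module.Finite κ[X] (integralClosure κ[X] K)] :
    FiniteDimensional κ (integralClosure κ[X] K ⧸ v) := by
  have h0 : v.under κ[X] ≠ ⊥ := by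
    have := ifr κ K
    exact Ideal.IsIntegral.comap_ne_bot κ[X] hv
  obtain ⟨h, hh⟩ := (inferInstance : IsPrincipalIdealRing κ[X]).principal (v.under κ[X])
  have hh' : v.under κ[X] = Ideal.span {h} := hh
  have hne : h ≠ 0 := by
    rintro rfl
    apply h0
    rw [hh', Ideal.span_singleton_eq_bot]
  have h1 : FiniteDimensional κ (κ[X] ⧸ v.under κ[X]) := by
    rw [hh']
    exact PowerBasis.finite (AdjoinRoot.powerBasis hne)
  exact Module.Finite.trans (κ[X] ⧸ v.under κ[X]) _


section Sum

variable {κ K : Type*} [Field κ] [Field K] [Algebra κ[X] K] [FaithfulSMul κ[X] K]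
  [Algebra.IsAlgebraic κ[X] K] [Algebra κ K] [IsScalarTower κ κ[X] K]
  [Module.Finite κ[X] (integralClosure κ[X] K)]

/-- The place of a maximal ideal. -/
noncomputable def plB [IsDedekindDomain (integralClosure κ[X] K)]
    [IsFractionRing (integralClosure κ[X] K) K] (v : HeightOneSpectrum (integralClosure κ[X] K)) :
    Place κ K where
  V := vs K v
  ov := fun c => by
    have h1 : algebraMap κ K c = algebraMap (integralClosure κ[X] K) K
        (algebraMap κ[X] _ (C c)) := by
      rw [← IsScalarTower.algebraMap_apply, IsScalarTower.algebraMap_apply κ κ[X] K]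
      rfl
    rw [h1]
    exact v.valuation_le_one _
  ne_top := vs_ne_top v

omit [FaithfulSMul κ[X] K] [Algebra.IsAlgebraic κ[X] K]
  [Module.Finite κ[X] (integralClosure κ[X] K)] in
theorem equiv_plB [IsDedekindDomain (integralClosure κ[X] K)]
    [IsFractionRing (integralClosure κ[X] K) K] (v : HeightOneSpectrum (integralClosure κ[X] K)) :
    Nonempty ((integralClosure κ[X] K ⧸ v.asIdeal) ≃ₗ[κ] ((plB v).sub ⧸ (plB v).max)) := by
  let φ : integralClosure κ[X] K →ₐ[κ] K := ((integralClosure κ[X] K).val).restrictScalars κ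
  have h2 : ∀ b, b ∈ v.asIdeal ↔ (plB v).V.valuation (φ b) < 1 := by
    intro b
    rw [← map_one (plB v).V.valuation]
    change _ ↔ (vs K v).valuation (algebraMap (integralClosure κ[X] K) K b) <
      (vs K v).valuation 1
    rw [vs_val_lt, map_one, v.valuation_lt_one_iff_mem]
  have h3 : ∀ x ∈ (plB v).V, ∃ b, (plB v).V.valuation (x - φ b) < 1 := by
    intro x hx
    obtain ⟨n, d, hnd⟩ := v.exists_primeCompl_mul_eq_of_integer x hx
    have hm := v.isMaximal
    obtain ⟨c, q, hq, hc⟩ := hm.exists_inv d.2
    refine ⟨n * c, ?_⟩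
    rw [← map_one (plB v).V.valuation]
    change (vs K v).valuation (x - algebraMap (integralClosure κ[X] K) K (n * c)) <
      (vs K v).valuation 1
    have h1 : x - algebraMap (integralClosure κ[X] K) K (n * c) =
        x * algebraMap (integralClosure κ[X] K) K q := by
      have h2 : algebraMap (integralClosure κ[X] K) K q =
          1 - algebraMap (integralClosure κ[X] K) K c *
            algebraMap (integralClosure κ[X] K) K (d : integralClosure κ[X] K) := by
        rw [← map_one (algebraMap (integralClosure κ[X] K) K), ← hc, map_add, map_mul]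
        ring
      rw [h2, map_mul, ← hnd]
      ring
    rw [vs_val_lt, map_one, h1, map_mul]
    exact (mul_le_of_le_one_left' hx).trans_lt ((v.valuation_lt_one_iff_mem q).2 hq)
  exact (plB v).deg_eq φ (fun b => v.valuation_le_one b) v.asIdeal h2 h3

omit [FaithfulSMul κ[X] K] [Algebra.IsAlgebraic κ[X] K]
  [Module.Finite κ[X] (integralClosure κ[X] K)] in
theorem deg_plB [IsDedekindDomain (integralClosure κ[X] K)]
    [IsFractionRing (integralClosure κ[X] K) K] (v : HeightOneSpectrum (integralClosure κ[X] K)) :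
    (plB v).deg = Module.finrank κ (integralClosure κ[X] K ⧸ v.asIdeal) := by
  obtain ⟨e⟩ := equiv_plB v
  exact e.finrank_eq.symm

omit [FaithfulSMul κ[X] K] [Algebra.IsAlgebraic κ[X] K] [Module.Finite κ[X] (integralClosure κ[X] K)] in
theorem map_mem (V : ValuationSubring K) (hk : ∀ c : κ, algebraMap κ K c ∈ V)
    (hX : algebraMap κ[X] K X ∈ V) (p : κ[X]) : algebraMap κ[X] K p ∈ V := by
  induction p using Polynomial.induction_on' with
  | add p q hp hq => rw [map_add]; exact add_mem hp hq
  | monomial n a =>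
    rw [← C_mul_X_pow_eq_monomial, map_mul, map_pow]
    refine mul_mem ?_ (pow_mem hX n)
    have h1 : algebraMap κ[X] K (C a) = algebraMap κ K a := by
      rw [IsScalarTower.algebraMap_apply κ κ[X] K]
      rfl
    rw [h1]
    exact hk a

omit [FaithfulSMul κ[X] K] [Algebra.IsAlgebraic κ[X] K] [Algebra κ K] [IsScalarTower κ κ[X] K]
  [Module.Finite κ[X] (integralClosure κ[X] K)] in
theorem int_mem (V : ValuationSubring K) (hp : ∀ p : κ[X], algebraMap κ[X] K p ∈ V) {b : K}
    (hb : IsIntegral κ[X] b) : b ∈ V := by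
  obtain ⟨q, hq, hq0⟩ := hb
  let f : κ[X] →+* V := (algebraMap κ[X] K).codRestrict V.toSubring hp
  have h1 : IsIntegral V b := by
    refine ⟨q.map f, hq.map f, ?_⟩
    rw [eval₂_map]
    exact hq0
  obtain ⟨y, hy⟩ := IsIntegrallyClosed.isIntegral_iff.1 h1
  rw [← hy]
  exact y.2

omit [FaithfulSMul κ[X] K] [Algebra.IsAlgebraic κ[X] K]
  [Module.Finite κ[X] (integralClosure κ[X] K)] in
theorem plB_bij [IsDedekindDomain (integralClosure κ[X] K)]
    [IsFractionRing (integralClosure κ[X] K) K] :
    Function.Bijective (fun v : HeightOneSpectrum (integralClosure κ[X] K) =>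
      (⟨plB v, v.valuation_le_one (algebraMap κ[X] (integralClosure κ[X] K) X)⟩ :
        {P : Place κ K // algebraMap κ[X] K X ∈ P.V})) := by
  constructor
  · intro v w h
    have h1 : vs K v = vs K w := congrArg (fun P => P.1.V) h
    exact vs_injective h1
  · rintro ⟨P, hP⟩
    obtain ⟨v, hv⟩ := exists_vs (B := integralClosure κ[X] K) P.ne_top
      (fun b => int_mem P.V (map_mem P.V P.ov hP) (show IsIntegral κ[X] (b : K) from b.2))
    refine ⟨v, ?_⟩
    apply Subtype.ext
    exact Place.ext hv.symm

theorem count_core (f : integralClosure κ[X] K) (hf : f ≠ 0) :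
    {P : {P : Place κ K // algebraMap κ[X] K X ∈ P.V} | ordV P.1.V (f : K) ≠ 0}.Finite ∧
    (∀ P : Place κ K, algebraMap κ[X] K X ∈ P.V → Disc P.V ∧
      FiniteDimensional κ (P.sub ⧸ P.max)) ∧
    ∑ᶠ P : {P : Place κ K // algebraMap κ[X] K X ∈ P.V}, ordV P.1.V (f : K) * (P.1.deg : ℤ) =
      (Algebra.norm κ[X] f).natDegree := by
  have h1 := ifr κ K
  have h2 := idd κ K
  have hfd : ∀ v : HeightOneSpectrum (integralClosure κ[X] K),
      FiniteDimensional κ (integralClosure κ[X] K ⧸ v.asIdeal) := fun v =>
    fin_quot κ K v.asIdeal v.ne_bot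
  have hbij := plB_bij (κ := κ) (K := K)
  have hI : Ideal.span {f} ≠ ⊥ := by
    rwa [ne_eq, Ideal.span_singleton_eq_bot]
  obtain ⟨h3, h4, h5⟩ := finrank_quot (κ := κ) hfd (Ideal.span {f}) hI
  have hord : ∀ v : HeightOneSpectrum (integralClosure κ[X] K),
      ordV (vs K v) (f : K) = multiplicity v.asIdeal (Ideal.span {f}) := fun v => ordV_vs v hf
  refine ⟨?_, ?_, ?_⟩
  · refine (h4.image (fun v => (⟨plB v, v.valuation_le_one (algebraMap κ[X] _ X)⟩ :
        {P : Place κ K // algebraMap κ[X] K X ∈ P.V}))).subset ?_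
    intro P hP
    obtain ⟨v, rfl⟩ := hbij.2 P
    refine ⟨v, ?_, rfl⟩
    intro h
    apply hP
    change ordV (vs K v) (f : K) = 0
    rw [hord, h, Nat.cast_zero]
  · intro P hP
    obtain ⟨v, hv⟩ := hbij.2 ⟨P, hP⟩
    have hv' : plB v = P := congrArg Subtype.val hv
    subst hv'
    refine ⟨vs_disc v, ?_⟩
    have := hfd v
    obtain ⟨e⟩ := equiv_plB v
    exact Module.Finite.equiv e
  · rw [← finrank_quotient_span_eq_natDegree_norm (Module.Free.chooseBasis κ[X] _) hf, h5]
    have h6 : ((∑ᶠ v : HeightOneSpectrum (integralClosure κ[X] K),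
        multiplicity v.asIdeal (Ideal.span {f}) *
          Module.finrank κ (integralClosure κ[X] K ⧸ v.asIdeal) : ℕ) : ℤ) =
        ∑ᶠ v : HeightOneSpectrum (integralClosure κ[X] K),
        ((multiplicity v.asIdeal (Ideal.span {f}) *
          Module.finrank κ (integralClosure κ[X] K ⧸ v.asIdeal) : ℕ) : ℤ) := by
      refine (Nat.castAddMonoidHom ℤ).map_finsum ?_
      refine h4.subset ?_
      intro v hv
      exact left_ne_zero_of_mul hv
    rw [h6]
    symm
    refine finsum_eq_of_bijective _ hbij ?_
    intro v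
    change _ = ordV (vs K v) (f : K) * ((plB v).deg : ℤ)
    rw [hord, deg_plB]
    push_cast
    rfl

end Sum

end Core

end Pool.Agent.TGh4
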