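import Pool.Agent.Lib.TG_h4.OrdV

/-!
# Dimension of `B / I` for a Dedekind domain `B` over a field (helper4)
-/

set_option autoImplicit false

namespace Pool.Agent.TGh4

open IsDedekindDomain

section Dedekind

variable {κ B : Type*} [Field κ] [CommRing B] [IsDedekindDomain B] [Algebra κ B]

theorem quot_mul_aux (I P : Ideal B) (hI : I ≠ ⊥) [hP : P.IsMaximal] :
    ∃ a ∈ I, a ∉ I * P ∧ Ideal.span {a} ⊔ I * P = I := by
  have h1 : I * P < I := by
    refine lt_of_le_of_ne Ideal.mul_le_left ?_
    intro h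
    have h2 : I * P = I * 1 := by rw [h, mul_one]
    have h3 := mul_left_cancel₀ hI h2
    exact hP.ne_top (h3.trans Ideal.one_eq_top)
  obtain ⟨a, ha, ha'⟩ := SetLike.exists_of_lt h1
  refine ⟨a, ha, ha', ?_⟩
  have h2 : Ideal.span {a} ⊔ I * P ≤ I :=
    sup_le ((Ideal.span_singleton_le_iff_mem I).2 ha) Ideal.mul_le_left
  obtain ⟨Q, hQ⟩ := Ideal.dvd_iff_le.2 h2
  have h3 : P ≤ Q := by
    have h4 : I * Q ∣ I * P := Ideal.dvd_iff_le.2 (hQ ▸ le_sup_right)
    exact Ideal.dvd_iff_le.1 ((mul_dvd_mul_iff_left hI).1 h4)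
  rcases eq_or_ne Q ⊤ with h4 | h4
  · rw [hQ, h4, Ideal.mul_top]
  · exfalso
    have h5 : P = Q := hP.eq_of_le h4 h3
    apply ha'
    rw [h5, ← hQ]
    exact Ideal.mem_sup_left (Ideal.mem_span_singleton_self a)

theorem quot_mul (I P : Ideal B) (hI : I ≠ ⊥) [hP : P.IsMaximal]
    [FiniteDimensional κ (B ⧸ I)] [FiniteDimensional κ (B ⧸ P)] :
    FiniteDimensional κ (B ⧸ I * P) ∧
      Module.finrank κ (B ⧸ I * P) = Module.finrank κ (B ⧸ I) + Module.finrank κ (B ⧸ P) := by
  obtain ⟨a, ha, ha', hsup⟩ := quot_mul_aux I P hI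
  have h1 : P ≤ Submodule.comap (LinearMap.mulLeft B a) (I * P) := by
    intro x hx
    exact Ideal.mul_mem_mul ha hx
  let θ : (B ⧸ P) →ₗ[B] (B ⧸ I * P) := Submodule.mapQ P (I * P) (LinearMap.mulLeft B a) h1
  let ψ : (B ⧸ I * P) →ₗ[B] (B ⧸ I) := Submodule.factor Ideal.mul_le_left
  have hθ : Function.Injective θ := by
    rw [← LinearMap.ker_eq_bot, LinearMap.ker_eq_bot']
    intro x hx
    obtain ⟨b, rfl⟩ := Submodule.Quotient.mk_surjective P x
    have h2 : a * b ∈ I * P := by
      have h3 : θ (Submodule.Quotient.mk b) = Submodule.Quotient.mk (a * b) := rfl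
      rw [h3] at hx
      exact (Submodule.Quotient.mk_eq_zero _).1 hx
    rw [Submodule.Quotient.mk_eq_zero]
    by_contra hb
    obtain ⟨c, q, hq, hc⟩ := hP.exists_inv hb
    apply ha'
    have h4 : a = c * (a * b) + a * q := by
      calc a = a * (c * b + q) := by rw [hc, mul_one]
        _ = _ := by ring
    rw [h4]
    exact add_mem (Ideal.mul_mem_left _ _ h2) (Ideal.mul_mem_mul ha hq)
  have hψ : Function.Surjective ψ := Submodule.factor_surjective _
  have hex : LinearMap.range θ = LinearMap.ker ψ := by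
    apply le_antisymm
    · rintro _ ⟨x, rfl⟩
      obtain ⟨b, rfl⟩ := Submodule.Quotient.mk_surjective P x
      have h3 : ψ (θ (Submodule.Quotient.mk b)) = Submodule.Quotient.mk (a * b) := rfl
      rw [LinearMap.mem_ker, h3, Submodule.Quotient.mk_eq_zero]
      exact Ideal.mul_mem_right _ _ ha
    · intro x hx
      obtain ⟨b, rfl⟩ := Submodule.Quotient.mk_surjective (I * P) x
      have h3 : ψ (Submodule.Quotient.mk b) = Submodule.Quotient.mk b := rfl
      rw [LinearMap.mem_ker, h3, Submodule.Quotient.mk_eq_zero, ← hsup] at hx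
      obtain ⟨y, hy, z, hz, rfl⟩ := Submodule.mem_sup.1 hx
      obtain ⟨c, rfl⟩ := Ideal.mem_span_singleton'.1 hy
      refine ⟨Submodule.Quotient.mk c, ?_⟩
      have h4 : θ (Submodule.Quotient.mk c) = Submodule.Quotient.mk (a * c) := rfl
      rw [h4]
      refine (Submodule.Quotient.eq _).2 ?_
      have h5 : a * c - (c * a + z) = -z := by ring
      rw [h5]
      exact neg_mem hz
  let θ' : (B ⧸ P) →ₗ[κ] (B ⧸ I * P) := θ.restrictScalars κ
  let ψ' : (B ⧸ I * P) →ₗ[κ] (B ⧸ I) := ψ.restrictScalars κ
  have hθ' : Function.Injective θ' := hθ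
  have hψ' : Function.Surjective ψ' := hψ
  have hex' : Function.Exact θ' ψ' := by
    intro x
    have := congrArg (fun S => x ∈ S) hex
    simp only [LinearMap.mem_range, LinearMap.mem_ker, eq_iff_iff] at this
    exact this.symm
  have hfd : FiniteDimensional κ (B ⧸ I * P) := by
    have hr : LinearMap.range θ' = LinearMap.ker ψ' := (LinearMap.exact_iff.1 hex').symm
    have h6 : Module.Finite κ (LinearMap.ker ψ') := by
      rw [← hr]
      infer_instance
    have h8 : Module.Finite κ ((B ⧸ I * P) ⧸ LinearMap.ker ψ') :=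
      Module.Finite.equiv (LinearMap.quotKerEquivOfSurjective ψ' hψ').symm
    exact Module.Finite.of_submodule_quotient (LinearMap.ker ψ')
  refine ⟨hfd, ?_⟩
  have h7 := LinearMap.finrank_range_add_finrank_ker ψ'
  rw [LinearMap.range_eq_top.2 hψ', finrank_top, LinearMap.exact_iff.1 hex',
    LinearMap.finrank_range_of_inj hθ'] at h7
  exact h7.symm

theorem finrank_quot (hfd : ∀ v : HeightOneSpectrum B, FiniteDimensional κ (B ⧸ v.asIdeal))
    (I : Ideal B) (hI : I ≠ ⊥) : FiniteDimensional κ (B ⧸ I) ∧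
      {v : HeightOneSpectrum B | multiplicity v.asIdeal I ≠ 0}.Finite ∧
      Module.finrank κ (B ⧸ I) = ∑ᶠ v : HeightOneSpectrum B,
        multiplicity v.asIdeal I * Module.finrank κ (B ⧸ v.asIdeal) := by
  classical
  induction I using UniqueFactorizationMonoid.induction_on_prime with
  | h₁ => exact absurd rfl hI
  | h₂ x hx =>
    have h1 : x = ⊤ := by
      rw [Ideal.isUnit_iff] at hx
      exact hx
    subst h1
    have h2 : ∀ v : HeightOneSpectrum B, multiplicity v.asIdeal (⊤ : Ideal B) = 0 := by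
      intro v
      rw [← Ideal.one_eq_top]
      exact multiplicity_of_one_right v.prime.not_isUnit
    have h3 : Subsingleton (B ⧸ (⊤ : Ideal B)) := Ideal.Quotient.subsingleton_iff.2 rfl
    refine ⟨inferInstance, ?_, ?_⟩
    · simp [h2]
    · simp [h2, Module.finrank_zero_of_subsingleton]
  | h₃ J P hJ hP ih =>
    have hP0 : P ≠ ⊥ := hP.ne_zero
    have hPm : P.IsMaximal := (Ideal.isPrime_of_prime hP).isMaximal hP0
    obtain ⟨h1, h2, h3⟩ := ih hJ
    let v : HeightOneSpectrum B := ⟨P, Ideal.isPrime_of_prime hP, hP0⟩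
    have hv : FiniteDimensional κ (B ⧸ P) := hfd v
    obtain ⟨h4, h5⟩ := quot_mul (κ := κ) J P hJ
    rw [mul_comm P J]
    have h6 : ∀ w : HeightOneSpectrum B, multiplicity w.asIdeal (J * P) =
        multiplicity w.asIdeal J + if w = v then 1 else 0 := by
      intro w
      have hfin : FiniteMultiplicity w.asIdeal (J * P) :=
        FiniteMultiplicity.of_prime_left w.prime (mul_ne_zero hJ hP0)
      rw [multiplicity_mul w.prime hfin]
      congr 1
      split_ifs with hw
      · rw [hw]
        exact multiplicity_self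
      · rw [multiplicity_eq_zero]
        intro hd
        apply hw
        ext1
        exact ((associated_iff_eq).1 (w.prime.associated_of_dvd hP hd))
    have h7 : {w : HeightOneSpectrum B | multiplicity w.asIdeal (J * P) ≠ 0} ⊆
        {w : HeightOneSpectrum B | multiplicity w.asIdeal J ≠ 0} ∪ {v} := by
      intro w hw
      rw [Set.mem_ofPred_eq, h6] at hw
      by_cases hwv : w = v
      · exact Or.inr hwv
      · rw [if_neg hwv, add_zero] at hw
        exact Or.inl hw
    refine ⟨h4, (h2.union (Set.finite_singleton v)).subset h7, ?_⟩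
    rw [h5, h3]
    have h8 : (fun w : HeightOneSpectrum B => multiplicity w.asIdeal (J * P) *
        Module.finrank κ (B ⧸ w.asIdeal)) = fun w => multiplicity w.asIdeal J *
        Module.finrank κ (B ⧸ w.asIdeal) + (if w = v then 1 else 0) *
        Module.finrank κ (B ⧸ w.asIdeal) := by
      funext w
      rw [h6, add_mul]
    rw [h8, finsum_add_distrib]
    · congr 1
      rw [finsum_eq_single _ v]
      · rw [if_pos rfl, one_mul]
      · intro w hw
        rw [if_neg hw, zero_mul]
    · refine h2.subset ?_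
      intro w hw
      rw [Function.mem_support] at hw
      exact left_ne_zero_of_mul hw
    · refine (Set.finite_singleton v).subset ?_
      intro w hw
      rw [Function.mem_support] at hw
      by_contra h
      have h' : w ≠ v := h
      rw [if_neg h', zero_mul] at hw
      exact hw rfl

end Dedekind

end Pool.Agent.TGh4
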