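import Pool.Agent.Lib.TG_h4.Count

/-!
# The product formula for function fields of one variable (helper4)

`Coord κ u` : `K` is a finite extension of `κ(u)` and the integral closure of `κ[u]` is finite.
-/

set_option autoImplicit false

namespace Pool.Agent.TGh4

open Polynomial IsDedekindDomain

section Conc

variable {κ K : Type*} [Field κ] [Field K] [Algebra κ K]

/-- `K` as an algebra over `κ[X]`, `X` acting as `u`. -/
@[reducible] noncomputable def algX (κ : Type*) {K : Type*} [Field κ] [Field K] [Algebra κ K]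
    (u : K) : Algebra κ[X] K := (aeval u).toAlgebra

/-- `u` is a transcendental element such that `K / κ(u)` is finite and such that the integral
closure of `κ[u]` in `K` is a finite module. -/
structure Coord (κ : Type*) {K : Type*} [Field κ] [Field K] [Algebra κ K] (u : K) : Prop where
  tr : Transcendental κ u
  fin : FiniteDimensional (IntermediateField.adjoin κ {u}) K
  nag : letI := algX κ u; Module.Finite κ[X] (integralClosure κ[X] K)

theorem aeval_mem_adjoin (u : K) (p : κ[X]) : aeval u p ∈ IntermediateField.adjoin κ {u} := by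
  have h1 : aeval u p ∈ Algebra.adjoin κ {u} := by
    rw [Algebra.adjoin_singleton_eq_range_aeval]
    exact ⟨p, rfl⟩
  exact IntermediateField.algebra_adjoin_le_adjoin κ {u} h1

/-- Everything about `κ[X] → κ(u) → K`. -/
theorem setup' (u : K) (htr : Transcendental κ u)
    (hfin : FiniteDimensional (IntermediateField.adjoin κ {u}) K) (F : IntermediateField κ K)
    (hF : F = IntermediateField.adjoin κ {u}) :
    letI := algX κ u
    ∃ (_ : Algebra κ[X] F), IsFractionRing κ[X] F ∧ IsScalarTower κ[X] F K ∧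
      FaithfulSMul κ[X] K ∧ IsScalarTower κ κ[X] K ∧ Algebra.IsAlgebraic κ[X] K ∧
      FiniteDimensional F K := by
  subst hF
  let _ := algX κ u
  have hmap : ∀ p : κ[X], algebraMap κ[X] K p = aeval u p := fun p => rfl
  let g : κ[X] →+* IntermediateField.adjoin κ {u} :=
    (aeval u : κ[X] →ₐ[κ] K).toRingHom.codRestrict
      (IntermediateField.adjoin κ {u}).toSubfield.toSubring (aeval_mem_adjoin u)
  let _ : Algebra κ[X] (IntermediateField.adjoin κ {u}) := g.toAlgebra
  have htow : IsScalarTower κ[X] (IntermediateField.adjoin κ {u}) K :=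
    IsScalarTower.of_algebraMap_eq fun p => rfl
  have hinj : Function.Injective (aeval u : κ[X] →ₐ[κ] K) :=
    transcendental_iff_injective.1 htr
  have hfs : FaithfulSMul κ[X] K := (faithfulSMul_iff_algebraMap_injective _ _).2 hinj
  have htow' : IsScalarTower κ κ[X] K := by
    refine IsScalarTower.of_algebraMap_eq fun c => ?_
    rw [hmap, ← Polynomial.C_eq_algebraMap, aeval_C]
  have hfr : IsFractionRing κ[X] (IntermediateField.adjoin κ {u}) := by
    have hfs' : FaithfulSMul κ[X] (IntermediateField.adjoin κ {u}) := by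
      refine (faithfulSMul_iff_algebraMap_injective _ _).2 ?_
      intro a b hab
      exact hinj (congrArg (fun y : IntermediateField.adjoin κ {u} => (y : K)) hab)
    refine IsFractionRing.of_field _ _ ?_
    rintro ⟨z, hz⟩
    obtain ⟨r, s, hrs⟩ := (IntermediateField.mem_adjoin_simple_iff κ z).1 hz
    exact ⟨r, s, Subtype.ext hrs⟩
  have halg : Algebra.IsAlgebraic κ[X] K := by
    have h1 : Algebra.IsAlgebraic (IntermediateField.adjoin κ {u}) K := inferInstance
    exact (IsFractionRing.comap_isAlgebraic_iff (A := κ[X]) (K := IntermediateField.adjoin κ {u})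
      (C := K)).2 h1
  exact ⟨inferInstance, hfr, htow, hfs, htow', halg, hfin⟩

theorem setup (u : K) (h : Coord κ u) (F : IntermediateField κ K)
    (hF : F = IntermediateField.adjoin κ {u}) :
    letI := algX κ u
    ∃ (_ : Algebra κ[X] F), IsFractionRing κ[X] F ∧ IsScalarTower κ[X] F K ∧
      FaithfulSMul κ[X] K ∧ IsScalarTower κ κ[X] K ∧ Algebra.IsAlgebraic κ[X] K ∧
      FiniteDimensional F K :=
  setup' u h.tr h.fin F hF

theorem disc_of_mem {u : K} (h : Coord κ u) (P : Place κ K) (hP : u ∈ P.V) :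
    Disc P.V ∧ FiniteDimensional κ (P.sub ⧸ P.max) := by
  let _ := algX κ u
  obtain ⟨_, hfr, htow, hfs, htow', halg, hfin⟩ := setup u h _ rfl
  have hn : Module.Finite κ[X] (integralClosure κ[X] K) := h.nag
  have hX : algebraMap κ[X] K X = u := by
    change aeval u X = u
    rw [aeval_X]
  obtain ⟨-, h1, -⟩ := count_core (κ := κ) (K := K) 1 one_ne_zero
  exact h1 P (by rw [hX]; exact hP)

theorem count {u : K} (h : Coord κ u) (F : IntermediateField κ K)
    (hF : F = IntermediateField.adjoin κ {u}) (f : K) (hf : f ≠ 0)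
    (hint : letI := algX κ u; IsIntegral κ[X] f) (p : κ[X])
    (hp : ((Algebra.norm F f : F) : K) = aeval u p) :
    {P : Place κ K | u ∈ P.V ∧ ordV P.V f ≠ 0}.Finite ∧
      ∑ᶠ P : {P : Place κ K // u ∈ P.V}, ordV P.1.V f * (P.1.deg : ℤ) = p.natDegree := by
  let _ := algX κ u
  obtain ⟨_, hfr, htow, hfs, htow', halg, hfin⟩ := setup u h F hF
  have hn : Module.Finite κ[X] (integralClosure κ[X] K) := h.nag
  have hX : algebraMap κ[X] K X = u := by
    change aeval u X = u
    rw [aeval_X]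
  let f' : integralClosure κ[X] K := ⟨f, hint⟩
  have hf' : f' ≠ 0 := fun h0 => hf (congrArg Subtype.val h0)
  obtain ⟨h1, -, h2⟩ := count_core (κ := κ) (K := K) f' hf'
  have hloc : IsLocalization (Algebra.algebraMapSubmonoid (integralClosure κ[X] K)
      (nonZeroDivisors κ[X])) K := IsIntegralClosure.isLocalization κ[X] F K _
  have h3 : Algebra.norm F (algebraMap (integralClosure κ[X] K) K f') =
      algebraMap κ[X] F (Algebra.norm κ[X] f') :=
    Algebra.norm_localization κ[X] (nonZeroDivisors κ[X]) f'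
  have h4 : aeval u (Algebra.norm κ[X] f') = aeval u p := by
    rw [← hp]
    change algebraMap κ[X] K (Algebra.norm κ[X] f') = _
    rw [IsScalarTower.algebraMap_apply κ[X] F K, ← h3]
    rfl
  have h5 : Algebra.norm κ[X] f' = p := transcendental_iff_injective.1 h.tr h4
  rw [h5] at h2
  let e : {P : Place κ K // algebraMap κ[X] K X ∈ P.V} ≃ {P : Place κ K // u ∈ P.V} :=
    Equiv.subtypeEquivRight fun P => by rw [hX]
  refine ⟨?_, ?_⟩
  · refine (h1.image (fun P => P.1)).subset ?_
    intro P hP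
    exact ⟨⟨P, by rw [hX]; exact hP.1⟩, hP.2, rfl⟩
  · rw [← h2]
    symm
    exact finsum_eq_of_bijective e e.bijective fun P => rfl

/-- `f` is integral over `κ[u]`. -/
def IntU (κ : Type*) {K : Type*} [Field κ] [Field K] [Algebra κ K] (u f : K) : Prop :=
  letI := algX κ u; IsIntegral κ[X] f

theorem IntU.mem {u f : K} (h : IntU κ u f) (P : Place κ K) (hP : u ∈ P.V) : f ∈ P.V := by
  let _ := algX κ u
  have hX : algebraMap κ[X] K X = u := by
    change aeval u X = u
    rw [aeval_X]
  have htow' : IsScalarTower κ κ[X] K := by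
    refine IsScalarTower.of_algebraMap_eq fun c => ?_
    change _ = aeval u _
    rw [← Polynomial.C_eq_algebraMap, aeval_C]
  exact int_mem P.V (map_mem P.V P.ov (by rw [hX]; exact hP)) h

theorem intU_self (u : K) : IntU κ u u := by
  let _ := algX κ u
  have hX : algebraMap κ[X] K X = u := by
    change aeval u X = u
    rw [aeval_X]
  change IsIntegral κ[X] u
  rw [← hX]
  exact isIntegral_algebraMap

theorem IntU.mul {u f g : K} (hf : IntU κ u f) (hg : IntU κ u g) : IntU κ u (f * g) := by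
  let _ := algX κ u
  exact IsIntegral.mul hf hg

theorem IntU.pow {u f : K} (hf : IntU κ u f) (n : ℕ) : IntU κ u (f ^ n) := by
  let _ := algX κ u
  exact IsIntegral.pow hf n

theorem exists_frac {u : K} (h : Coord κ u) {f : K} (hf : f ≠ 0) :
    ∃ a b, a ≠ 0 ∧ b ≠ 0 ∧ IntU κ u a ∧ IntU κ u b ∧ f = a / b := by
  let _ := algX κ u
  obtain ⟨_, hfr, htow, hfs, htow', halg, hfin⟩ := setup u h _ rfl
  have h1 := ifr κ K
  obtain ⟨a, b, hb, hab⟩ := IsFractionRing.div_surjective (A := integralClosure κ[X] K) f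
  have hb0 : (b : K) ≠ 0 := by
    have := nonZeroDivisors.ne_zero hb
    exact fun h0 => this (Subtype.ext h0)
  refine ⟨a, b, ?_, hb0, a.2, b.2, hab.symm⟩
  intro h0
  apply hf
  rw [← hab]
  change (a : K) / b = 0
  rw [h0, zero_div]

theorem exists_norm {u : K} (h : Coord κ u) (F : IntermediateField κ K)
    (hF : F = IntermediateField.adjoin κ {u}) {f : K} (hf : f ≠ 0) (hint : IntU κ u f) :
    ∃ p : κ[X], p ≠ 0 ∧ ((Algebra.norm F f : F) : K) = aeval u p := by
  let _ := algX κ u
  obtain ⟨_, hfr, htow, hfs, htow', halg, hfin⟩ := setup u h F hF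
  have hn : Module.Finite κ[X] (integralClosure κ[X] K) := h.nag
  let f' : integralClosure κ[X] K := ⟨f, hint⟩
  have hloc : IsLocalization (Algebra.algebraMapSubmonoid (integralClosure κ[X] K)
      (nonZeroDivisors κ[X])) K := IsIntegralClosure.isLocalization κ[X] F K _
  have h3 : Algebra.norm F (algebraMap (integralClosure κ[X] K) K f') =
      algebraMap κ[X] F (Algebra.norm κ[X] f') :=
    Algebra.norm_localization κ[X] (nonZeroDivisors κ[X]) f'
  have h4 : ((Algebra.norm F f : F) : K) = aeval u (Algebra.norm κ[X] f') := by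
    change _ = algebraMap κ[X] K (Algebra.norm κ[X] f')
    rw [IsScalarTower.algebraMap_apply κ[X] F K, ← h3]
    rfl
  refine ⟨Algebra.norm κ[X] f', ?_, h4⟩
  intro h0
  rw [h0, map_zero] at h4
  have h5 : Algebra.norm F f = 0 := Subtype.ext h4
  rw [Algebra.norm_eq_zero_iff] at h5
  exact hf h5

theorem exists_mul {u : K} (h : Coord κ u) {f : K} (hf : f ≠ 0) (hint : IntU κ u f) :
    ∃ (p : κ[X]) (g : K), p ≠ 0 ∧ IntU κ u g ∧ f * g = aeval u p := by
  let _ := algX κ u
  obtain ⟨_, hfr, htow, hfs, htow', halg, hfin⟩ := setup u h _ rfl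
  let f' : integralClosure κ[X] K := ⟨f, hint⟩
  have hI : Ideal.span {f'} ≠ ⊥ := by
    rw [ne_eq, Ideal.span_singleton_eq_bot]
    exact fun h0 => hf (congrArg Subtype.val h0)
  have h1 := Ideal.IsIntegral.comap_ne_bot κ[X] hI
  obtain ⟨p, hp, hp0⟩ := Submodule.exists_mem_ne_zero_of_ne_bot h1
  obtain ⟨g, hg⟩ := Ideal.mem_span_singleton'.1 (Ideal.mem_comap.1 hp)
  refine ⟨p, g, hp0, g.2, ?_⟩
  have h2 := congrArg (fun y : integralClosure κ[X] K => (y : K)) hg
  rw [mul_comm]
  exact h2

theorem supp_aff {u : K} (h : Coord κ u) {f : K} (hf : f ≠ 0) :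
    {P : Place κ K | u ∈ P.V ∧ ordV P.V f ≠ 0}.Finite := by
  obtain ⟨a, b, ha, hb, hia, hib, rfl⟩ := exists_frac h hf
  obtain ⟨p, -, hp⟩ := exists_norm h _ rfl ha hia
  obtain ⟨q, -, hq⟩ := exists_norm h _ rfl hb hib
  refine ((count h _ rfl a ha hia p hp).1.union (count h _ rfl b hb hib q hq).1).subset ?_
  rintro P ⟨hP, hP'⟩
  rw [ordV_div _ ha hb] at hP'
  by_cases h1 : ordV P.V a = 0
  · right
    refine ⟨hP, fun h2 => hP' ?_⟩
    rw [h1, h2, sub_zero]
  · left
    exact ⟨hP, h1⟩

theorem intU_iff {u f : K} : IntU κ u f ↔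
    ∃ P : K[X], P.Monic ∧ P.eval f = 0 ∧ ∀ i, P.coeff i ∈ Algebra.adjoin κ {u} := by
  let _ := algX κ u
  constructor
  · rintro ⟨Q, hQ, hQ0⟩
    refine ⟨Q.map (algebraMap κ[X] K), hQ.map _, ?_, ?_⟩
    · rw [eval_map]
      exact hQ0
    · intro i
      rw [coeff_map, Algebra.adjoin_singleton_eq_range_aeval]
      exact ⟨Q.coeff i, rfl⟩
  · rintro ⟨P, hP, hP0, hc⟩
    have h1 : P ∈ lifts (algebraMap κ[X] K) := by
      rw [lifts_iff_coeff_lifts]
      intro i
      have := hc i
      rw [Algebra.adjoin_singleton_eq_range_aeval] at this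
      exact this
    obtain ⟨Q, hQ, -, hQm⟩ := lifts_and_natDegree_eq_and_monic h1 hP
    refine ⟨Q, hQm, ?_⟩
    rw [← eval_map, hQ, hP0]

/-- `IntU κ u f` says that `f` is integral over the subalgebra `κ[u]`. -/
theorem intU_iff_isIntegral {u f : K} :
    IntU κ u f ↔ IsIntegral (Algebra.adjoin κ {u}) f := by
  rw [intU_iff]
  constructor
  · rintro ⟨P, hP, hP0, hc⟩
    have h1 : P ∈ lifts (algebraMap (Algebra.adjoin κ {u}) K) := by
      rw [lifts_iff_coeff_lifts]
      intro i
      exact ⟨⟨P.coeff i, hc i⟩, rfl⟩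
    obtain ⟨Q, hQ, -, hQm⟩ := lifts_and_natDegree_eq_and_monic h1 hP
    refine ⟨Q, hQm, ?_⟩
    rw [← eval_map, hQ, hP0]
  · rintro ⟨Q, hQ, hQ0⟩
    refine ⟨Q.map (algebraMap _ K), hQ.map _, ?_, ?_⟩
    · rw [eval_map]
      exact hQ0
    · intro i
      rw [coeff_map]
      exact (Q.coeff i).2

/-- `{y | w ^ n * y ∈ κ[w] for all large n}`. -/
theorem scale_mem {w : K} (hw : w ≠ 0) (c : κ) {y : K}
    (hy : y ∈ Algebra.adjoin κ {algebraMap κ K c + w⁻¹}) :
    ∃ n0 : ℕ, ∀ n ≥ n0, w ^ n * y ∈ Algebra.adjoin κ {w} := by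
  have hwm : w ∈ Algebra.adjoin κ {w} := Algebra.self_mem_adjoin_singleton κ w
  induction hy using Algebra.adjoin_induction with
  | mem x hx =>
    rw [Set.mem_singleton_iff] at hx
    subst hx
    refine ⟨1, fun n hn => ?_⟩
    obtain ⟨m, rfl⟩ : ∃ m, n = m + 1 := ⟨n - 1, by omega⟩
    have h0 : w ^ (m + 1) * w⁻¹ = w ^ m := by
      rw [pow_succ, mul_assoc, mul_inv_cancel₀ hw, mul_one]
    have h1 : w ^ (m + 1) * (algebraMap κ K c + w⁻¹) =
        w ^ (m + 1) * algebraMap κ K c + w ^ m := by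
      rw [mul_add, h0]
    rw [h1]
    exact add_mem (mul_mem (pow_mem hwm _) (Subalgebra.algebraMap_mem _ _)) (pow_mem hwm _)
  | algebraMap r =>
    exact ⟨0, fun n _ => mul_mem (pow_mem hwm _) (Subalgebra.algebraMap_mem _ _)⟩
  | add x y _ _ hx hy =>
    obtain ⟨n1, h1⟩ := hx
    obtain ⟨n2, h2⟩ := hy
    refine ⟨n1 ⊔ n2, fun n hn => ?_⟩
    rw [mul_add]
    exact add_mem (h1 n (le_trans (le_max_left _ _) hn)) (h2 n (le_trans (le_max_right _ _) hn))
  | mul x y _ _ hx hy =>
    obtain ⟨n1, h1⟩ := hx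
    obtain ⟨n2, h2⟩ := hy
    refine ⟨n1 + n2, fun n hn => ?_⟩
    obtain ⟨m, rfl⟩ : ∃ m, n = n1 + (n2 + m) := ⟨n - n1 - n2, by omega⟩
    have h3 : w ^ (n1 + (n2 + m)) * (x * y) = (w ^ n1 * x) * (w ^ (n2 + m) * y) := by
      rw [pow_add]
      ring
    rw [h3]
    exact mul_mem (h1 n1 le_rfl) (h2 _ (by omega))

theorem IntU.scale {w : K} (hw : w ≠ 0) (c : κ) {f : K}
    (hf : IntU κ (algebraMap κ K c + w⁻¹) f) :
    ∃ n0 : ℕ, ∀ n ≥ n0, IntU κ w (w ^ n * f) := by
  obtain ⟨P, hP, hP0, hc⟩ := intU_iff.1 hf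
  have hwm : w ∈ Algebra.adjoin κ {w} := Algebra.self_mem_adjoin_singleton κ w
  choose n1 hn1 using fun i => scale_mem hw c (hc i)
  refine ⟨(Finset.range (P.natDegree + 1)).sup n1, fun n hn => ?_⟩
  rw [intU_iff]
  refine ⟨P.scaleRoots (w ^ n), (monic_scaleRoots_iff _).2 hP, ?_, ?_⟩
  · rw [scaleRoots_eval_mul, hP0, mul_zero]
  · intro i
    rw [coeff_scaleRoots]
    rcases lt_trichotomy i P.natDegree with h | h | h
    · have h1 : n1 i ≤ n := by
        refine le_trans (Finset.le_sup (f := n1) ?_) hn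
        rw [Finset.mem_range]
        omega
      obtain ⟨m, hm⟩ : ∃ m, P.natDegree - i = m + 1 := ⟨P.natDegree - i - 1, by omega⟩
      rw [hm, pow_succ, ← mul_assoc, mul_comm (P.coeff i), mul_assoc, mul_comm (P.coeff i)]
      exact mul_mem (pow_mem (pow_mem hwm _) _) (hn1 i n h1)
    · subst h
      rw [Nat.sub_self, pow_zero, mul_one, hP.coeff_natDegree]
      exact one_mem _
    · rw [coeff_eq_zero_of_natDegree_lt h, zero_mul]
      exact zero_mem _

/-- Hypotheses on a function field of one variable. -/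
structure FF (κ K : Type*) [Field κ] [Field K] [Algebra κ K] : Prop where
  inf : Infinite κ
  ex : ∃ u : K, Transcendental κ u
  coord : ∀ u : K, Transcendental κ u → Coord κ u

theorem transc_shift {u : K} (hu : Transcendental κ u) (c : κ) :
    u - algebraMap κ K c ≠ 0 ∧ Transcendental κ (u - algebraMap κ K c)⁻¹ := by
  have h1 : Transcendental κ (u - algebraMap κ K c) := by
    intro h
    apply hu
    have := h.add (isAlgebraic_algebraMap (R := κ) (A := K) c)
    rwa [sub_add_cancel] at this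
  refine ⟨?_, ?_⟩
  · intro h0
    rw [h0] at h1
    exact h1 isAlgebraic_zero
  · intro h
    apply h1
    have := h.inv
    rwa [inv_inv] at this

theorem adjoin_shift {u : K} (c : κ) :
    IntermediateField.adjoin κ {u} =
      IntermediateField.adjoin κ {(u - algebraMap κ K c)⁻¹} := by
  apply le_antisymm
  · rw [IntermediateField.adjoin_simple_le_iff]
    have h1 : (u - algebraMap κ K c)⁻¹ ∈ IntermediateField.adjoin κ {(u - algebraMap κ K c)⁻¹} :=
      IntermediateField.mem_adjoin_simple_self κ _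
    have h2 := add_mem (inv_mem h1) (IntermediateField.algebraMap_mem
      (IntermediateField.adjoin κ {(u - algebraMap κ K c)⁻¹}) c)
    rwa [inv_inv, sub_add_cancel] at h2
  · rw [IntermediateField.adjoin_simple_le_iff]
    exact inv_mem (sub_mem (IntermediateField.mem_adjoin_simple_self κ _)
      (IntermediateField.algebraMap_mem _ c))

theorem FF.supp (h : FF κ K) {f : K} (hf : f ≠ 0) : {P : Place κ K | ordV P.V f ≠ 0}.Finite := by
  obtain ⟨u, hu⟩ := h.ex
  obtain ⟨h0, h1⟩ := transc_shift hu 0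
  rw [map_zero, sub_zero] at h0 h1
  refine ((supp_aff (h.coord u hu) hf).union (supp_aff (h.coord _ h1) hf)).subset ?_
  intro P hP
  rcases P.V.mem_or_inv_mem u with h2 | h2
  · exact Or.inl ⟨h2, hP⟩
  · exact Or.inr ⟨h2, hP⟩

theorem FF.disc (h : FF κ K) (P : Place κ K) :
    Disc P.V ∧ FiniteDimensional κ (P.sub ⧸ P.max) := by
  obtain ⟨u, hu⟩ := h.ex
  obtain ⟨h0, h1⟩ := transc_shift hu 0
  rw [map_zero, sub_zero] at h0 h1
  rcases P.V.mem_or_inv_mem u with h2 | h2
  · exact disc_of_mem (h.coord u hu) P h2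
  · exact disc_of_mem (h.coord _ h1) P h2

theorem FF.deg_pos (h : FF κ K) (P : Place κ K) : 0 < P.deg := by
  have h1 := (h.disc P).2
  have h2 : Nontrivial (P.sub ⧸ P.max) := Ideal.Quotient.nontrivial_iff.2 P.max_ne_top
  exact Module.finrank_pos

theorem finsum_sub {α : Type*} (p : α → Prop) (f : α → ℤ) (h : ∀ a, f a ≠ 0 → p a) :
    ∑ᶠ a : Subtype p, f a = ∑ᶠ a, f a := by
  rw [finsum_subtype_eq_finsum_cond]
  refine finsum_congr fun a => ?_
  by_cases hp : p a
  · simp [hp]
  · have : f a = 0 := by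
      by_contra h0
      exact hp (h a h0)
    simp [this]

theorem Place.val_const (P : Place κ K) {c : κ} (hc : c ≠ 0) :
    P.V.valuation (algebraMap κ K c) = 1 := by
  have h1 := (P.V.valuation_le_one_iff _).2 (P.ov c)
  have h2 := (P.V.valuation_le_one_iff _).2 (P.ov c⁻¹)
  rw [map_inv₀, map_inv₀] at h2
  have h0 : P.V.valuation (algebraMap κ K c) ≠ 0 :=
    (Valuation.ne_zero_iff _).2 (by rwa [ne_eq, map_eq_zero])
  refine le_antisymm h1 ?_
  exact (inv_le_one₀ (zero_lt_iff.2 h0)).1 h2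

theorem Place.val_aeval (P : Place κ K) {u : K} {c : κ}
    (h : P.V.valuation (u - algebraMap κ K c) < 1) {q : κ[X]} (hq : q.eval c ≠ 0) :
    P.V.valuation (aeval u q) = 1 := by
  have h1 : u - algebraMap κ K c ∈ P.V := (P.V.valuation_le_one_iff _).1 h.le
  have hu : u ∈ P.V := by
    have := add_mem h1 (P.ov c)
    rwa [sub_add_cancel] at this
  have h2 : aeval u q = algebraMap κ K (q.eval c) +
      (u - algebraMap κ K c) * aeval u (q /ₘ (X - C c)) := by
    conv_lhs => rw [← modByMonic_add_div q (X - C c), modByMonic_X_sub_C_eq_C_eval]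
    rw [map_add, map_mul, map_sub, aeval_C, aeval_X, aeval_C]
  have h3 : ∀ p : κ[X], aeval u p ∈ P.V := by
    intro p
    have h4 : aeval u p ∈ Algebra.adjoin κ {u} := by
      rw [Algebra.adjoin_singleton_eq_range_aeval]
      exact ⟨p, rfl⟩
    have h5 : Algebra.adjoin κ {u} ≤ P.sub := Algebra.adjoin_le (Set.singleton_subset_iff.2 hu)
    exact h5 h4
  rw [h2, Valuation.map_add_eq_of_lt_left, P.val_const hq]
  rw [P.val_const hq, map_mul]
  exact (mul_le_of_le_one_right' ((P.V.valuation_le_one_iff _).2 (h3 _))).trans_lt h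

theorem norm_of_mem (F : IntermediateField κ K) {x : K} (hx : x ∈ F) :
    ((Algebra.norm F x : F) : K) = x ^ Module.finrank F K := by
  have h1 := Algebra.norm_algebraMap (S := K) (⟨x, hx⟩ : F)
  change Algebra.norm F x = _ at h1
  rw [h1]
  rfl

/-- `Σ_{u(P) ≠ ∞} ord_P(u) deg P = [K : κ(u)]`. -/
theorem count_self {u : K} (h : Coord κ u) :
    ∑ᶠ P : {P : Place κ K // u ∈ P.V}, ordV P.1.V u * (P.1.deg : ℤ) =
      Module.finrank (IntermediateField.adjoin κ {u}) K := by
  have hu0 : u ≠ 0 := by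
    rintro rfl
    exact h.tr isAlgebraic_zero
  have h1 := (count h _ rfl u hu0 (intU_self u)
    (X ^ Module.finrank (IntermediateField.adjoin κ {u}) K) ?_).2
  · rw [h1, natDegree_X_pow]
  · rw [norm_of_mem _ (IntermediateField.mem_adjoin_simple_self κ u), map_pow, aeval_X]

theorem count_f {u : K} (h : FF κ K) (hu : Transcendental κ u) {f : K} (hf : f ≠ 0)
    (hint : IntU κ u f) : ∑ᶠ P : Place κ K, ordV P.V f * (P.deg : ℤ) = 0 := by
  have hinf := h.inf
  have hcu := h.coord u hu
  have hfin := hcu.fin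
  obtain ⟨p, hp0, hp⟩ := exists_norm hcu _ rfl hf hint
  obtain ⟨q, g, hq0, hg, hq⟩ := exists_mul hcu hf hint
  obtain ⟨c, hc⟩ : ∃ c : κ, (p * q).eval c ≠ 0 := by
    by_contra hne
    push Not at hne
    exact mul_ne_zero hp0 hq0 (Polynomial.funext fun c => by rw [hne, eval_zero])
  rw [eval_mul] at hc
  obtain ⟨h0, hw⟩ := transc_shift hu c
  obtain ⟨w, hwdef⟩ : ∃ w, w = (u - algebraMap κ K c)⁻¹ := ⟨_, rfl⟩
  rw [← hwdef] at hw
  have hw0 : w ≠ 0 := by
    rw [hwdef]
    exact inv_ne_zero h0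
  have huw : u = algebraMap κ K c + w⁻¹ := by
    rw [hwdef, inv_inv]
    ring
  have hF : IntermediateField.adjoin κ {u} = IntermediateField.adjoin κ {w} := by
    rw [hwdef]
    exact adjoin_shift c
  have hcw := h.coord w hw
  obtain ⟨m0, hm0⟩ := IntU.scale hw0 c (huw ▸ hint)
  obtain ⟨m, hm⟩ : ∃ m, m = m0 + p.natDegree := ⟨_, rfl⟩
  have hn : 0 < Module.finrank (IntermediateField.adjoin κ {u}) K := Module.finrank_pos
  obtain ⟨n, hndef⟩ : ∃ n, n = Module.finrank (IntermediateField.adjoin κ {u}) K := ⟨_, rfl⟩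
  rw [← hndef] at hn
  have hle : p.natDegree ≤ m * n := by
    calc p.natDegree ≤ m := by omega
      _ = m * 1 := (mul_one _).symm
      _ ≤ m * n := Nat.mul_le_mul_left _ hn
  let q1 : κ[X] := p.comp (X + C c)
  have hq1 : q1.natDegree ≤ m * n := by
    rw [natDegree_comp, natDegree_X_add_C, mul_one]
    exact hle
  have hq10 : q1.coeff 0 ≠ 0 := by
    rw [coeff_zero_eq_eval_zero, eval_comp]
    simp only [eval_add, eval_X, eval_C, zero_add]
    exact left_ne_zero_of_mul hc
  let r : κ[X] := reflect (m * n) q1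
  have hr : r.natDegree = m * n := by
    apply natDegree_eq_of_le_of_coeff_ne_zero
    · exact natDegree_reflect_le.trans (max_le le_rfl hq1)
    · rw [coeff_reflect, revAt_le le_rfl, Nat.sub_self]
      exact hq10
  have haev : aeval w r = w ^ (m * n) * aeval u p := by
    have hwi : w⁻¹ ≠ 0 := inv_ne_zero hw0
    let _ : Invertible (w⁻¹) := invertibleOfNonzero hwi
    have h1 := eval₂_reflect_mul_pow (algebraMap κ K) w⁻¹ (m * n) q1 hq1
    rw [invOf_eq_inv, inv_inv, ← aeval_def, ← aeval_def] at h1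
    have h2 : aeval w⁻¹ q1 = aeval u p := by
      have h3 : aeval w⁻¹ q1 = aeval (aeval w⁻¹ (X + C c : κ[X])) p := aeval_comp _
      rw [h3, map_add, aeval_X, aeval_C, add_comm, ← huw]
    rw [h2] at h1
    rw [← h1, mul_comm, mul_assoc, ← mul_pow, inv_mul_cancel₀ hw0, one_pow, mul_one]
  have hS1 := (count hcw _ hF (w ^ m * f) (mul_ne_zero (pow_ne_zero _ hw0) hf)
    (hm0 m (by omega)) r ?_).2
  have hS2 := (count hcw _ hF w hw0 (intU_self w) (X ^ n) ?_).2
  · have hfw := hcw.fin
    have hsub : ∀ P : Place κ K, ordV P.V f * (P.deg : ℤ) ≠ 0 → w ∈ P.V := by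
      intro P hP
      by_contra hPw
      apply hP
      have h1 : u - algebraMap κ K c ∈ P.V := by
        have := (P.V.mem_or_inv_mem w).resolve_left hPw
        rwa [hwdef, inv_inv] at this
      have h2 : P.V.valuation (u - algebraMap κ K c) < 1 := by
        by_contra h3
        apply hPw
        rw [← P.V.valuation_le_one_iff, hwdef, map_inv₀]
        exact inv_le_one_of_one_le₀ (not_lt.1 h3)
      have hu' : u ∈ P.V := by
        have := add_mem h1 (P.ov c)
        rwa [sub_add_cancel] at this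
      have hfm : f ∈ P.V := hint.mem P hu'
      have hgm : g ∈ P.V := hg.mem P hu'
      have h4 := P.val_aeval h2 (right_ne_zero_of_mul hc)
      rw [← hq, map_mul] at h4
      have h5 : P.V.valuation f = 1 :=
        eq_one_of_one_le_mul_left ((P.V.valuation_le_one_iff _).2 hfm)
          ((P.V.valuation_le_one_iff _).2 hgm) h4.ge
      have h6 := (ordV_eq_zero_iff (h.disc P).1 hf).2 h5
      rw [h6, zero_mul]
    have e1 : ∑ᶠ P : {P : Place κ K // w ∈ P.V}, ordV P.1.V (w ^ m * f) * (P.1.deg : ℤ) =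
        m * (∑ᶠ P : {P : Place κ K // w ∈ P.V}, ordV P.1.V w * (P.1.deg : ℤ)) +
        ∑ᶠ P : {P : Place κ K // w ∈ P.V}, ordV P.1.V f * (P.1.deg : ℤ) := by
      have hfs : ∀ y : K, y ≠ 0 → {P : {P : Place κ K // w ∈ P.V} |
          ordV P.1.V y * (P.1.deg : ℤ) ≠ 0}.Finite := by
        intro y hy
        have h1 := h.supp hy
        refine Set.Finite.subset (h1.preimage (f := fun P : {P : Place κ K // w ∈ P.V} => P.1)
          (Subtype.val_injective.injOn)) ?_
        intro P hP
        exact left_ne_zero_of_mul hP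
      rw [mul_finsum, ← finsum_add_distrib]
      · refine finsum_congr fun P => ?_
        rw [ordV_mul _ (pow_ne_zero _ hw0) hf, ordV_pow]
        ring
      · refine (hfs w hw0).subset ?_
        intro P hP
        exact right_ne_zero_of_mul hP
      · exact hfs f hf
    rw [e1, hS2, natDegree_X_pow, hr, finsum_sub _ _ hsub] at hS1
    push_cast at hS1
    linarith
  · rw [norm_of_mem _ (hF ▸ IntermediateField.mem_adjoin_simple_self κ w), map_pow, aeval_X,
      hndef]
  · rw [map_mul, map_pow]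
    change ((Algebra.norm _ w : IntermediateField.adjoin κ {u}) : K) ^ m *
      ((Algebra.norm _ f : IntermediateField.adjoin κ {u}) : K) = _
    rw [norm_of_mem _ (hF ▸ IntermediateField.mem_adjoin_simple_self κ w), hp, haev, ← pow_mul,
      ← hndef, mul_comm m n]

theorem FF.finite_mul (h : FF κ K) {f : K} (hf : f ≠ 0) :
    {P : Place κ K | ordV P.V f * (P.deg : ℤ) ≠ 0}.Finite :=
  (h.supp hf).subset fun _ hP => left_ne_zero_of_mul hP

/-- **The product formula.** -/
theorem FF.product_formula (h : FF κ K) {f : K} (hf : f ≠ 0) :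
    ∑ᶠ P : Place κ K, ordV P.V f * (P.deg : ℤ) = 0 := by
  obtain ⟨u, hu⟩ := h.ex
  obtain ⟨a, b, ha, hb, hia, hib, rfl⟩ := exists_frac (h.coord u hu) hf
  have h1 := count_f h hu ha hia
  have h2 := count_f h hu hb hib
  have h3 : (fun P : Place κ K => ordV P.V (a / b) * (P.deg : ℤ)) =
      fun P => ordV P.V a * (P.deg : ℤ) - ordV P.V b * (P.deg : ℤ) := by
    funext P
    rw [ordV_div _ ha hb, sub_mul]
  rw [h3, finsum_sub_distrib (h.finite_mul ha) (h.finite_mul hb), h1, h2, sub_zero]

/-- The degree of the divisor of zeros of `u` is `[K : κ(u)]`. -/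
theorem FF.zeros (h : FF κ K) {u : K} (hu : Transcendental κ u) :
    ∑ᶠ P : Place κ K, max (ordV P.V u) 0 * (P.deg : ℤ) =
      Module.finrank (IntermediateField.adjoin κ {u}) K := by
  rw [← count_self (h.coord u hu)]
  have hu0 : u ≠ 0 := by
    rintro rfl
    exact hu isAlgebraic_zero
  have h1 : ∀ P : Place κ K, max (ordV P.V u) 0 * (P.deg : ℤ) ≠ 0 → u ∈ P.V := by
    intro P hP
    rw [mem_iff (h.disc P).1 hu0]
    by_contra h2
    rw [max_eq_right (by omega), zero_mul] at hP
    exact hP rfl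
  rw [← finsum_sub _ _ h1]
  refine finsum_congr fun P => ?_
  rw [max_eq_left ((mem_iff (h.disc P.1).1 hu0).1 P.2)]

/-- The degree of the divisor of poles of `u` is `[K : κ(u)]`. -/
theorem FF.poles (h : FF κ K) {u : K} (hu : Transcendental κ u) :
    ∑ᶠ P : Place κ K, max (-ordV P.V u) 0 * (P.deg : ℤ) =
      Module.finrank (IntermediateField.adjoin κ {u}) K := by
  obtain ⟨h0, h1⟩ := transc_shift hu 0
  have h2 := adjoin_shift (κ := κ) (u := u) 0
  rw [map_zero, sub_zero] at h0 h1 h2
  rw [h2, ← h.zeros h1]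
  refine finsum_congr fun P => ?_
  rw [ordV_inv]

theorem FF.finite_max (h : FF κ K) {f : K} (hf : f ≠ 0) :
    {P : Place κ K | max (-ordV P.V f) 0 * (P.deg : ℤ) ≠ 0}.Finite := by
  refine (h.supp hf).subset fun P hP h0 => ?_
  have hP' : max (-ordV P.V f) 0 * (P.deg : ℤ) ≠ 0 := hP
  rw [h0] at hP'
  simp at hP'

end Conc

end Pool.Agent.TGh4
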